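import Pool.Agent.H927.MG.SGoals

/-!
# M4P1 arc2 (helper747, for helper927)

A rational map from the affine line to a separated scheme locally of finite type which extends
along formal arcs through all points is a morphism.
-/

set_option autoImplicit false

open AlgebraicGeometry CategoryTheory Limits Polynomial

namespace Pool.Agent.H747.MG927

open Pool.Agent.H927.MG

/-! ### algebra -/

theorem constantCoeff_arc {c : ℂ} {s : PowerSeries ℂ} (hs : PowerSeries.constantCoeff s = c)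
    (p : ℂ[X]) : PowerSeries.constantCoeff (arc s p) = p.eval c := by
  unfold arc
  rw [coe_eval₂RingHom, Polynomial.hom_eval₂, hs]
  have : (PowerSeries.constantCoeff : PowerSeries ℂ →+* ℂ).comp PowerSeries.C = RingHom.id ℂ := by
    ext x
    simp
  rw [this]
  rfl

theorem mul_denom (f : RatFunc ℂ) : f * algebraMap ℂ[X] (RatFunc ℂ) (RatFunc.denom f) =
    algebraMap ℂ[X] (RatFunc ℂ) (RatFunc.num f) := by
  have h3 : algebraMap ℂ[X] (RatFunc ℂ) (RatFunc.denom f) ≠ 0 := by
    rw [Ne, map_eq_zero_iff _ (RatFunc.algebraMap_injective ℂ)]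
    exact RatFunc.denom_ne_zero f
  exact ((div_eq_iff h3).1 (RatFunc.num_div_denom f)).symm

theorem denom_ne {c : ℂ} {s : PowerSeries ℂ} (hs : PowerSeries.constantCoeff s = c)
    {Ω : Type} [Field Ω] {a : PowerSeries ℂ →+* Ω} {b : RatFunc ℂ →+* Ω}
    (ha : Function.Injective a)
    (hab : a.comp (arc s) = b.comp (algebraMap ℂ[X] (RatFunc ℂ)))
    {f : RatFunc ℂ} {r : PowerSeries ℂ} (h : b f = a r) : (RatFunc.denom f).eval c ≠ 0 := by
  intro h0
  have h1 : ∀ p : ℂ[X], b (algebraMap ℂ[X] (RatFunc ℂ) p) = a (arc s p) := fun p =>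
    (RingHom.congr_fun hab p).symm
  have h2 := mul_denom f
  have h5 : r * arc s (RatFunc.denom f) = arc s (RatFunc.num f) := by
    apply ha
    rw [map_mul, ← h, ← h1, ← h1, ← map_mul, h2]
  have h6 := congrArg PowerSeries.constantCoeff h5
  rw [map_mul, constantCoeff_arc hs, constantCoeff_arc hs, h0, mul_zero] at h6
  obtain ⟨u, v, huv⟩ := RatFunc.isCoprime_num_denom f
  have h7 := congrArg (Polynomial.eval c) huv
  rw [eval_add, eval_mul, eval_mul, ← h6, h0, mul_zero, mul_zero, add_zero, eval_one] at h7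
  exact zero_ne_one h7

/-- the localization inside of the field of rational functions -/
noncomputable def lam (g : ℂ[X]) (hg : g ≠ 0) : Localization.Away g →+* RatFunc ℂ :=
  IsLocalization.Away.lift g (g := algebraMap ℂ[X] (RatFunc ℂ)) (by
    rw [isUnit_iff_ne_zero, Ne, map_eq_zero_iff _ (RatFunc.algebraMap_injective ℂ)]
    exact hg)

theorem lam_algebraMap (g : ℂ[X]) (hg : g ≠ 0) (p : ℂ[X]) :
    lam g hg (algebraMap ℂ[X] (Localization.Away g) p) = algebraMap ℂ[X] (RatFunc ℂ) p :=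
  IsLocalization.Away.lift_eq _ _ _

theorem lam_comp (g : ℂ[X]) (hg : g ≠ 0) :
    (lam g hg).comp (algebraMap ℂ[X] (Localization.Away g)) = algebraMap ℂ[X] (RatFunc ℂ) :=
  RingHom.ext (lam_algebraMap g hg)

theorem lam_injective (g : ℂ[X]) (hg : g ≠ 0) : Function.Injective (lam g hg) := by
  rw [injective_iff_map_eq_zero]
  intro x hx
  obtain ⟨⟨p, n⟩, hp⟩ := IsLocalization.surj (M := Submonoid.powers g) x
  have h1 := congrArg (lam g hg) hp
  rw [map_mul, hx, zero_mul] at h1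
  have h2 : algebraMap ℂ[X] (RatFunc ℂ) p = 0 := by
    rw [← lam_algebraMap g hg]
    exact h1.symm
  rw [map_eq_zero_iff _ (RatFunc.algebraMap_injective ℂ)] at h2
  have h3 : x * algebraMap ℂ[X] (Localization.Away g) n = 0 := by
    rw [hp]
    show algebraMap ℂ[X] (Localization.Away g) p = 0
    rw [h2, map_zero]
  have h4 : IsUnit (algebraMap ℂ[X] (Localization.Away g) n) :=
    IsLocalization.map_units (Localization.Away g) n
  exact (h4.mul_left_eq_zero).1 h3

theorem mem_range_lam (g : ℂ[X]) (hg : g ≠ 0) {f : RatFunc ℂ} (h : RatFunc.denom f ∣ g) :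
    f ∈ (lam g hg).range := by
  obtain ⟨k, hk⟩ := h
  have hg0 : algebraMap ℂ[X] (RatFunc ℂ) g ≠ 0 := by
    rw [Ne, map_eq_zero_iff _ (RatFunc.algebraMap_injective ℂ)]
    exact hg
  have hu : IsUnit (algebraMap ℂ[X] (Localization.Away g) g) :=
    IsLocalization.map_units (Localization.Away g) (⟨g, Submonoid.mem_powers g⟩ :
      Submonoid.powers g)
  obtain ⟨v, hv⟩ := hu
  refine ⟨algebraMap ℂ[X] (Localization.Away g) (RatFunc.num f * k) * ((v⁻¹ : _ˣ) : _), ?_⟩
  have h1 : lam g hg (((v⁻¹ : _ˣ) : _)) * algebraMap ℂ[X] (RatFunc ℂ) g = 1 := by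
    rw [← lam_algebraMap g hg, ← map_mul, ← hv, Units.inv_mul, map_one]
  have h2 : lam g hg (((v⁻¹ : _ˣ) : _)) = (algebraMap ℂ[X] (RatFunc ℂ) g)⁻¹ :=
    eq_inv_of_mul_eq_one_left h1
  rw [map_mul, lam_algebraMap, h2, map_mul, ← div_eq_mul_inv, div_eq_iff hg0]
  conv_rhs => rw [hk, map_mul, ← mul_assoc]
  rw [mul_denom f]

/-- factorization through an injective ring homomorphism -/
theorem factor {B L F : Type} [CommRing B] [CommRing L] [CommRing F] (l : L →+* F)
    (hl : Function.Injective l) (γ : B →+* F) (h : ∀ x, γ x ∈ l.range) :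
    ∃ γ' : B →+* L, l.comp γ' = γ := by
  have hb : Function.Bijective l.rangeRestrict :=
    ⟨fun x y hxy => hl (congrArg Subtype.val hxy), l.rangeRestrict_surjective⟩
  let e : L ≃+* l.range := RingEquiv.ofBijective l.rangeRestrict hb
  refine ⟨(e.symm : l.range →+* L).comp (γ.codRestrict l.range h), ?_⟩
  apply RingHom.ext
  intro x
  have h1 : e (e.symm (γ.codRestrict l.range h x)) = γ.codRestrict l.range h x :=
    e.apply_symm_apply _
  exact congrArg Subtype.val h1

/-- all elements of a finitely generated algebra map to the localization -/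
theorem exists_g {B : Type} [CommRing B] (κ : ℂ →+* B) (hκ : κ.FiniteType) (γ : B →+* RatFunc ℂ)
    (hγ : γ.comp κ = algebraMap ℂ (RatFunc ℂ)) (c : ℂ)
    (h : ∀ x, (RatFunc.denom (γ x)).eval c ≠ 0) :
    ∃ (g : ℂ[X]) (hg : g ≠ 0), g.eval c ≠ 0 ∧ ∀ x, γ x ∈ (lam g hg).range := by
  classical
  let _ : Algebra ℂ B := κ.toAlgebra
  have hfg : Algebra.FiniteType ℂ B := hκ
  obtain ⟨s, hs⟩ := hfg.out
  have hc : (∏ x ∈ s, RatFunc.denom (γ x)).eval c ≠ 0 := by
    rw [Polynomial.eval_prod]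
    exact Finset.prod_ne_zero_iff.2 fun x _ => h x
  have hg : (∏ x ∈ s, RatFunc.denom (γ x)) ≠ 0 := by
    intro h0
    rw [h0, eval_zero] at hc
    exact hc rfl
  refine ⟨∏ x ∈ s, RatFunc.denom (γ x), hg, hc, ?_⟩
  intro x
  have hx : x ∈ Algebra.adjoin ℂ (s : Set B) := by rw [hs]; trivial
  induction hx using Algebra.adjoin_induction with
  | mem x hx => exact mem_range_lam _ hg (Finset.dvd_prod_of_mem _ hx)
  | algebraMap r =>
    have h1 : γ (algebraMap ℂ B r) = algebraMap ℂ (RatFunc ℂ) r := RingHom.congr_fun hγ r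
    rw [h1]
    refine ⟨algebraMap ℂ[X] _ (C r), ?_⟩
    rw [lam_algebraMap]
    rfl
  | add x y _ _ hx hy => rw [map_add]; exact Subring.add_mem _ hx hy
  | mul x y _ _ hx hy => rw [map_mul]; exact Subring.mul_mem _ hx hy

/-! ### schemes -/

theorem dom_of_inj {R S : Type} [CommRing R] [CommRing S] (φ : R →+* S)
    (h : Function.Injective φ) : IsDominant (Spec.map (CommRingCat.ofHom φ)) := by
  constructor
  show DenseRange (PrimeSpectrum.comap φ)
  rw [PrimeSpectrum.denseRange_comap_iff_ker_le_nilRadical,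
    (RingHom.injective_iff_ker_eq_bot _).1 h]
  exact bot_le

/-- the map extends to a neighbourhood of `c` -/
theorem local_ext (M : Scheme.{0}) (sM : M ⟶ Spec (.of ℂ)) [LocallyOfFiniteType sM]
    (ψ : Spec (.of (RatFunc ℂ)) ⟶ M)
    (hψ : ψ ≫ sM = Spec.map (CommRingCat.ofHom (algebraMap ℂ (RatFunc ℂ))))
    {c : ℂ} {s : PowerSeries ℂ} (hs : PowerSeries.constantCoeff s = c)
    (ρ : Spec (.of (PowerSeries ℂ)) ⟶ M)
    (hΩ : ∃ (Ω : Type) (_ : Field Ω) (a : PowerSeries ℂ →+* Ω) (b : RatFunc ℂ →+* Ω),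
      Function.Injective a ∧ a.comp (arc s) = b.comp (algebraMap ℂ[X] (RatFunc ℂ)) ∧
      Spec.map (CommRingCat.ofHom a) ≫ ρ = Spec.map (CommRingCat.ofHom b) ≫ ψ) :
    ∃ (g : ℂ[X]) (hg : g ≠ 0), g.eval c ≠ 0 ∧ ∃ χ : Spec (.of (Localization.Away g)) ⟶ M,
      Spec.map (CommRingCat.ofHom (lam g hg)) ≫ χ = ψ ∧
      χ ≫ sM = Spec.map (CommRingCat.ofHom (algebraMap ℂ[X] (Localization.Away g))) ≫
        Spec.map (CommRingCat.ofHom C) := by
  obtain ⟨Ω, _, a, b, ha, hab, h⟩ := hΩ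
  obtain ⟨V, hV, hxV, -⟩ := exists_isAffineOpen_mem_and_subset (X := M)
    (x := ρ (IsLocalRing.closedPoint (PowerSeries ℂ))) (U := ⊤) trivial
  let j := hV.fromSpec
  have hpre : ρ ⁻¹ᵁ V = ⊤ := Scheme.preimage_eq_top_of_closedPoint_mem (f := ρ) hxV
  have hρ : Set.range ρ ⊆ Set.range j := by
    rw [hV.range_fromSpec]
    rintro _ ⟨z, rfl⟩
    have : z ∈ ρ ⁻¹ᵁ V := by rw [hpre]; trivial
    exact this
  have hψr : Set.range ψ ⊆ Set.range j := by
    rintro _ ⟨z, rfl⟩
    let z0 : Spec (.of Ω) := IsLocalRing.closedPoint Ω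
    have hz : z = Spec.map (CommRingCat.ofHom b) z0 :=
      Subsingleton.elim (α := PrimeSpectrum (RatFunc ℂ)) _ _
    have h1 : ψ z = ρ (Spec.map (CommRingCat.ofHom a) z0) := by
      rw [hz, ← Scheme.Hom.comp_apply, ← h, Scheme.Hom.comp_apply]
    rw [h1]
    exact hρ ⟨_, rfl⟩
  -- ring homomorphisms
  obtain ⟨β, hβ⟩ := Spec.map_surjective (IsOpenImmersion.lift j ρ hρ)
  obtain ⟨γ, hγ⟩ := Spec.map_surjective (IsOpenImmersion.lift j ψ hψr)
  obtain ⟨κ, hκ⟩ := Spec.map_surjective (j ≫ sM)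
  have hβ' : Spec.map β ≫ j = ρ := by rw [hβ]; exact IsOpenImmersion.lift_fac _ _ _
  have hγ' : Spec.map γ ≫ j = ψ := by rw [hγ]; exact IsOpenImmersion.lift_fac _ _ _
  have hag : γ ≫ CommRingCat.ofHom b = β ≫ CommRingCat.ofHom a := by
    apply Spec.map_injective
    rw [Spec.map_comp, Spec.map_comp, ← cancel_mono j, Category.assoc, Category.assoc, hγ', hβ', h]
  have hag' : ∀ x, b (γ.hom x) = a (β.hom x) := by
    intro x
    exact congrArg (fun t : _ ⟶ CommRingCat.of Ω => t.hom x) hag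
  have hκγ : κ ≫ γ = CommRingCat.ofHom (algebraMap ℂ (RatFunc ℂ)) := by
    apply Spec.map_injective
    rw [Spec.map_comp, hκ, ← hψ, ← hγ', Category.assoc]
  have hft : κ.hom.FiniteType := by
    rw [← HasRingHomProperty.Spec_iff (P := @LocallyOfFiniteType), hκ]
    infer_instance
  obtain ⟨g, hg, hgc, hr⟩ := exists_g κ.hom hft γ.hom
    (congrArg (fun t : _ ⟶ CommRingCat.of (RatFunc ℂ) => t.hom) hκγ) c
    (fun x => denom_ne hs ha hab (hag' x))
  obtain ⟨γ', hγγ⟩ := factor (lam g hg) (lam_injective g hg) γ.hom hr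
  refine ⟨g, hg, hgc, Spec.map (CommRingCat.ofHom γ') ≫ j, ?_, ?_⟩
  · rw [← Category.assoc, ← Spec.map_comp, ← hγ']
    congr 2
    apply CommRingCat.hom_ext
    exact hγγ
  · rw [Category.assoc, ← hκ, ← Spec.map_comp, ← Spec.map_comp]
    congr 1
    apply CommRingCat.hom_ext
    apply RingHom.ext
    intro r
    apply lam_injective g hg
    have h1 : lam g hg (γ' (κ.hom r)) = γ.hom (κ.hom r) := RingHom.congr_fun hγγ _
    have h2 : γ.hom (κ.hom r) = algebraMap ℂ (RatFunc ℂ) r :=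
      congrArg (fun t : _ ⟶ CommRingCat.of (RatFunc ℂ) => t.hom r) hκγ
    show lam g hg (γ' (κ.hom r)) = lam g hg (algebraMap ℂ[X] (Localization.Away g) (C r))
    rw [h1, h2, lam_algebraMap]
    rfl

theorem span_top (g : ℂ → ℂ[X]) (hg : ∀ c, (g c).eval c ≠ 0) :
    Ideal.span (Set.range g) = ⊤ := by
  by_contra hne
  obtain ⟨d, hd⟩ := (IsPrincipalIdealRing.principal (Ideal.span (Set.range g))).principal
  have hdv : ∀ c, d ∣ g c := by
    intro c
    have : g c ∈ Ideal.span (Set.range g) := Ideal.subset_span ⟨c, rfl⟩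
    rw [hd] at this
    exact Ideal.mem_span_singleton.1 this
  have hdu : ¬ IsUnit d := by
    intro hu
    apply hne
    rw [hd]
    exact Ideal.span_singleton_eq_top.2 hu
  have hroot : ∃ c, d.IsRoot c := by
    by_cases hdeg : d.degree = 0
    · exact absurd (Polynomial.isUnit_iff_degree_eq_zero.2 hdeg) hdu
    · exact IsAlgClosed.exists_root d hdeg
  obtain ⟨c, hc⟩ := hroot
  exact hg c (Polynomial.eval_eq_zero_of_dvd_of_eval_eq_zero (hdv c) hc)

/-- the maps extend to a morphism from the affine line -/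
theorem glue (M : Scheme.{0}) (sM : M ⟶ Spec (.of ℂ)) [IsSeparated sM]
    (ψ : Spec (.of (RatFunc ℂ)) ⟶ M) (g : ℂ → ℂ[X]) (hg : ∀ c, g c ≠ 0)
    (hgc : ∀ c, (g c).eval c ≠ 0) (χ : ∀ c, Spec (.of (Localization.Away (g c))) ⟶ M)
    (h1 : ∀ c, Spec.map (CommRingCat.ofHom (lam (g c) (hg c))) ≫ χ c = ψ)
    (h2 : ∀ c, χ c ≫ sM =
      Spec.map (CommRingCat.ofHom (algebraMap ℂ[X] (Localization.Away (g c)))) ≫
        Spec.map (CommRingCat.ofHom C)) :
    ∃ φ : Spec (.of ℂ[X]) ⟶ M, φ ≫ sM = Spec.map (CommRingCat.ofHom C) ∧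
      Spec.map (CommRingCat.ofHom (algebraMap ℂ[X] (RatFunc ℂ))) ≫ φ = ψ := by
  let U : (Spec (.of ℂ[X])).OpenCover :=
    (Scheme.affineOpenCoverOfSpanRangeEqTop (R := .of ℂ[X]) g (span_top g hgc)).openCover
  let f : ∀ c : ℂ, Spec (.of (Localization.Away (g c))) ⟶ Spec (.of ℂ[X]) := fun c =>
    Spec.map (CommRingCat.ofHom (algebraMap ℂ[X] (Localization.Away (g c))))
  have hf : ∀ c, IsOpenImmersion (f c) := fun c => U.map_prop c
  have hl : ∀ c, Spec.map (CommRingCat.ofHom (lam (g c) (hg c))) ≫ f c =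
      Spec.map (CommRingCat.ofHom (algebraMap ℂ[X] (RatFunc ℂ))) := by
    intro c
    rw [← Spec.map_comp]
    congr 1
    apply CommRingCat.hom_ext
    exact lam_comp (g c) (hg c)
  have hcomp : ∀ c c', pullback.fst (f c) (f c') ≫ χ c = pullback.snd (f c) (f c') ≫ χ c' := by
    intro c c'
    have := hf c
    have := hf c'
    let i : Spec (.of (RatFunc ℂ)) ⟶ pullback (f c) (f c') :=
      pullback.lift (Spec.map (CommRingCat.ofHom (lam (g c) (hg c))))
        (Spec.map (CommRingCat.ofHom (lam (g c') (hg c')))) (by rw [hl, hl])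
    have hi : IsDominant i := by
      have h3 : i ≫ (pullback.fst (f c) (f c') ≫ f c) =
          Spec.map (CommRingCat.ofHom (algebraMap ℂ[X] (RatFunc ℂ))) := by
        rw [← Category.assoc, pullback.lift_fst, hl]
      have h4 : IsDominant (i ≫ (pullback.fst (f c) (f c') ≫ f c)) := by
        rw [h3]
        exact dom_of_inj _ (RatFunc.algebraMap_injective ℂ)
      exact IsDominant.of_comp_of_isOpenImmersion i (pullback.fst (f c) (f c') ≫ f c)
    have hred : IsReduced (pullback (f c) (f c')) :=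
      isReduced_of_isOpenImmersion (pullback.fst (f c) (f c'))
    apply ext_of_isDominant_of_isSeparated sM _ i
    · rw [← Category.assoc, ← Category.assoc, pullback.lift_fst, pullback.lift_snd, h1, h1]
    · rw [Category.assoc, Category.assoc, h2, h2, ← Category.assoc, ← Category.assoc]
      congr 1
      exact pullback.condition
  refine ⟨U.glueMorphisms χ hcomp, ?_, ?_⟩
  · apply U.hom_ext
    intro c
    rw [Scheme.Cover.ι_glueMorphisms_assoc]
    exact h2 c
  · rw [← hl 0, Category.assoc]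
    have : f 0 ≫ U.glueMorphisms χ hcomp = χ 0 := U.ι_glueMorphisms χ hcomp (0 : ℂ)
    rw [this]
    exact h1 0

theorem arc2 : S_arc2 := by
  intro M sM _ _ ψ hψ s hs _ ρ hρ hΩ
  choose g hg hgc χ hχ1 hχ2 using fun c => local_ext M sM ψ hψ (hs c) (ρ c) (hΩ c)
  obtain ⟨φ, hφ1, hφ2⟩ := glue M sM ψ g hg hgc χ hχ1 hχ2
  refine ⟨φ, hφ1, fun c => ?_⟩
  obtain ⟨Ω, _, a, b, ha, hab, h⟩ := hΩ c
  have hd : IsDominant (Spec.map (CommRingCat.ofHom a)) := dom_of_inj a ha
  apply ext_of_isDominant_of_isSeparated sM _ (Spec.map (CommRingCat.ofHom a))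
  · rw [h, ← hφ2, ← Category.assoc, ← Category.assoc, ← Spec.map_comp, ← Spec.map_comp]
    congr 2
    apply CommRingCat.hom_ext
    exact hab
  · rw [hρ, Category.assoc, hφ1, ← Spec.map_comp]
    congr 1
    apply CommRingCat.hom_ext
    apply RingHom.ext
    intro r
    show arc (s c) (C r) = PowerSeries.C r
    unfold arc
    simp

end Pool.Agent.H747.MG927
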